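import Pool.Agent.H.MP_ef05c8_mp.M

open MeasureTheory
open scoped FourierTransform Laplacian

namespace Pool.Agent.Results.MP_ef05c8_mp.Medium

abbrev E (d : ℕ) := EuclideanSpace ℝ (Fin d)

variable {d : ℕ}

/-- Convolution on `ℝ^d`. -/
noncomputable def conv (f g : E d → ℝ) (x : E d) : ℝ := ∫ y, f (x - y) * g y

/-- Admissible potentials. -/
def Adm (v : E d → ℝ) : Prop :=
  (∀ x, 0 ≤ v x) ∧ ¬v =ᵐ[volume] 0 ∧ Integrable v ∧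
    ∃ p : ℝ, max ((d : ℝ) / 2) 1 < p ∧ MemLp v (ENNReal.ofReal p)

/-- `S = (1 - u) v`. -/
def S (v u : E d → ℝ) (x : E d) : ℝ := (1 - u x) * v x

/-- Integrable distributional solutions of the Medium Equation with values in `[0,1]`. -/
def Sol (m ρ : ℝ) (v u : E d → ℝ) : Prop :=
  Integrable u ∧ (∀ᵐ x, 0 ≤ u x ∧ u x ≤ 1) ∧
    ∀ φ : E d → ℝ, ContDiff ℝ (⊤ : ℕ∞) φ → HasCompactSupport φ →
      ∫ x, u x * (-(1 / m) * Δ φ x) =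
        ∫ x, (S v u x - 2 * ρ * conv u (S v u) x + ρ ^ 2 * conv u (conv u (S v u)) x) * φ x

/-- Bounded potentials whose Fourier transform has negative real part on some sphere. -/
def Neg (v : E d → ℝ) : Prop :=
  (∃ M, ∀ x, v x ≤ M) ∧ ∃ r : ℝ, 0 < r ∧ ∀ k : E d, ‖k‖ = r → (𝓕 (fun x => (v x : ℂ)) k).re < 0

open Pool.Agent.H.MP_ef05c8_mp in
theorem result (d : ℕ) (hd : 2 ≤ d) :
    (∀ v : E d → ℝ, Adm v → Neg v → ∀ m : ℝ, 0 < m →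
      ∃ ρ₀ : ℝ, 0 < ρ₀ ∧ ∀ ρ, ρ₀ ≤ ρ → ¬∃ u, Sol m ρ v u) ∧
    Adm (fun x : E d => Real.exp (-‖x‖ ^ 2) - Real.exp (-2 * ‖x‖ ^ 2)) ∧
    Neg (fun x : E d => Real.exp (-‖x‖ ^ 2) - Real.exp (-2 * ‖x‖ ^ 2)) := by
  have e : (fun x : E d => Real.exp (-‖x‖ ^ 2) - Real.exp (-2 * ‖x‖ ^ 2)) =
      fun x => Real.exp (-2 * ‖x‖ ^ 2) * -1 + Real.exp (-1 * ‖x‖ ^ 2) := by
    ext x
    rw [neg_one_mul]
    ring
  have h0 : ∀ x : E d, 0 ≤ Real.exp (-‖x‖ ^ 2) - Real.exp (-2 * ‖x‖ ^ 2) := fun x =>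
    sub_nonneg.2 (Real.exp_le_exp.2 (by nlinarith [sq_nonneg ‖x‖]))
  have h1 : ∀ x : E d, Real.exp (-‖x‖ ^ 2) - Real.exp (-2 * ‖x‖ ^ 2) ≤ 1 := fun x => by
    linarith [Real.exp_pos (-2 * ‖x‖ ^ 2), Real.exp_le_one_iff.2 (neg_nonpos.2 (sq_nonneg ‖x‖))]
  have hi : Integrable fun x : E d => Real.exp (-‖x‖ ^ 2) - Real.exp (-2 * ‖x‖ ^ 2) := by
    rw [e]
    exact ((M.gauss two_pos).1.mul_const _).add (M.gauss one_pos).1
  have hn : Neg fun x : E d => Real.exp (-‖x‖ ^ 2) - Real.exp (-2 * ‖x‖ ^ 2) := by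
    refine ⟨⟨1, h1⟩, ?_⟩
    have := M.ex_neg (d := d)
    rw [← e] at this
    exact this
  refine ⟨?_, ⟨h0, fun h => ?_, hi, max ((d : ℝ) / 2) 1 + 1, lt_add_one _, ?_⟩, hn⟩
  · rintro v ⟨a, -, b, -⟩ ⟨⟨B, hM⟩, r, hr, c⟩ m hm
    obtain ⟨ρ₀, h2, h3⟩ := M.main hd hm b a hM hr c
    exact ⟨ρ₀, h2, fun ρ hρ ⟨u, u1, u2, u3⟩ => h3 ρ hρ u u1 u2 u3⟩
  · obtain ⟨r, hr, c⟩ := hn.2
    have := c (EuclideanSpace.single ⟨0, by omega⟩ r) (by simp [hr.le])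
    rw [Real.fourier_eq', integral_eq_zero_of_ae (h.mono fun x hx => by
      simp only [Pi.zero_apply] at hx ⊢
      rw [hx]
      simp)] at this
    simp at this
  · have hp : 1 ≤ max ((d : ℝ) / 2) 1 + 1 := by linarith [le_max_right ((d : ℝ) / 2) 1]
    rw [← integrable_norm_rpow_iff hi.1 (by simp; positivity) ENNReal.ofReal_ne_top,
      ENNReal.toReal_ofReal (by positivity)]
    refine hi.mono' (Measurable.aestronglyMeasurable (by fun_prop)) (Filter.Eventually.of_forall fun x => ?_)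
    rw [Real.norm_of_nonneg (by positivity), Real.norm_of_nonneg (h0 x)]
    exact Real.rpow_le_self_of_le_one (h0 x) (h1 x) hp

end Pool.Agent.Results.MP_ef05c8_mp.Medium
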